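import Pool.Agent.Helper32_ABCT.EStmts
import Pool.Agent.Helper32_ABCT.NWf
import Pool.Agent.Helper32_ABCT.Api3

/-!
# TFACE (MP_a17fcb_ag, part E)
-/

open MvPolynomial Filter Topology

namespace ABCT.H42

open FlatCell ABCT

theorem natpoly_eval_pos {σ : Type*} (y : σ → ℝ) (hy : ∀ u, 0 < y u) (f : MvPolynomial σ ℕ)
    (hf : f ≠ 0) : 0 < eval₂ (Nat.castRingHom ℝ) y f := by
  rw [eval₂_eq]
  apply Finset.sum_pos
  · intro d hd
    have h1 : coeff d f ≠ 0 := mem_support_iff.1 hd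
    have h2 : (0 : ℝ) < (Nat.castRingHom ℝ) (coeff d f) := by
      simp only [eq_natCast, Nat.cast_pos]
      omega
    exact mul_pos h2 (Finset.prod_pos fun i _ => pow_pos (hy i) _)
  · rw [Finset.nonempty_iff_ne_empty]
    intro h
    exact hf (support_eq_empty.1 h)

theorem tface (hF : FacetStmt) : TfaceStmt := by
  intro S ν hS hB hne
  obtain ⟨hWf, hMc⟩ := wfStmt S hS
  -- the minimum
  obtain ⟨I0, hI0, hmin⟩ := Finset.exists_min_image S.M (fun I => ∑ i ∈ I, ν i) hWf.nonempty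
  set m : ℝ := ∑ i ∈ I0, ν i with hm
  obtain ⟨J1, hJ1, hJm⟩ : ∃ J ∈ S.M, m < ∑ i ∈ J, ν i := by
    by_contra hcon
    push Not at hcon
    obtain ⟨I, hI, J, hJ, hIJ⟩ := hne
    have h1 : ∑ i ∈ I, ν i = m := le_antisymm (hcon I hI) (hmin I hI)
    have h2 : ∑ i ∈ J, ν i = m := le_antisymm (hcon J hJ) (hmin J hJ)
    exact hIJ (h1.trans h2.symm)
  -- the rank is positive
  have hrk : 0 < S.rk := by
    rw [Nat.pos_iff_ne_zero]
    intro h0
    have h1 := (hMc J1 hJ1).2
    have h2 := (hMc I0 hI0).2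
    rw [h0, Finset.card_eq_zero] at h1 h2
    rw [h1] at hJm
    rw [hm, h2] at hJm
    exact lt_irrefl _ hJm
  have hrk' : (0 : ℝ) < (S.rk : ℝ) := by exact_mod_cast hrk
  -- the values of Delta at one
  set dl : Finset ℕ → ℝ := fun I => eval₂ (Nat.castRingHom ℝ) (fun _ => (1 : ℝ)) (S.Δ I) with hdl
  have hdl_pos : ∀ I ∈ S.M, 0 < dl I := fun I hI =>
    natpoly_eval_pos _ (fun _ => one_pos) _ ((hWf.ne I).2 hI)
  -- the curve
  set x : ℝ → S.flat.V → ℝ := fun s v => match v with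
    | Sum.inl i => s ^ (ν i - m / S.rk)
    | Sum.inr _ => 1 with hx
  have hev : ∀ s : ℝ, 0 < s → ∀ I ∈ S.M, S.flat.ev (x s) I = s ^ (∑ i ∈ I, ν i - m) * dl I := by
    intro s hs I hI
    rw [ev_eq]
    congr 1
    change ∏ i ∈ I, s ^ (ν i - m / S.rk) = _
    rw [← Real.rpow_sum_of_pos hs]
    congr 1
    rw [Finset.sum_sub_distrib, Finset.sum_const, (hMc I hI).2, nsmul_eq_mul]
    field_simp
  set z0 : Finset ℕ → ℝ := fun I =>
    if I ∈ S.M ∧ ∑ i ∈ I, ν i = m then dl I else 0 with hz0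
  have hlim : Tendsto (fun n : ℕ => S.flat.ev (x (1 / ((n : ℝ) + 1)))) atTop (𝓝 z0) := by
    rw [tendsto_pi_nhds]
    intro I
    have hs : Tendsto (fun n : ℕ => 1 / ((n : ℝ) + 1)) atTop (𝓝 0) :=
      tendsto_one_div_add_atTop_nhds_zero_nat
    have hspos : ∀ n : ℕ, (0 : ℝ) < 1 / ((n : ℝ) + 1) := fun n => by positivity
    by_cases hI : I ∈ S.M
    · have h1 : ∀ n : ℕ, S.flat.ev (x (1 / ((n : ℝ) + 1))) I =
          (1 / ((n : ℝ) + 1)) ^ (∑ i ∈ I, ν i - m) * dl I := fun n => hev _ (hspos n) I hI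
      simp only [h1]
      by_cases h2 : ∑ i ∈ I, ν i = m
      · have h3 : z0 I = dl I := by rw [hz0]; simp only [hI, h2, and_self, if_true]
        rw [h3, h2]
        simp
      · have h3 : z0 I = 0 := by rw [hz0]; simp only [hI, h2, and_false, if_false]
        rw [h3]
        have h4 : 0 < ∑ i ∈ I, ν i - m := by
          have := lt_of_le_of_ne (hmin I hI) (Ne.symm h2)
          linarith
        have h5 : Tendsto (fun n : ℕ => (1 / ((n : ℝ) + 1)) ^ (∑ i ∈ I, ν i - m)) atTop (𝓝 0) := by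
          have h6 := hs.rpow_const (p := ∑ i ∈ I, ν i - m) (Or.inr h4.le)
          rwa [Real.zero_rpow h4.ne'] at h6
        have h7 := h5.mul_const (dl I)
        rwa [zero_mul] at h7
    · have h1 : ∀ n : ℕ, S.flat.ev (x (1 / ((n : ℝ) + 1))) I = 0 :=
        fun n => ev_ne_mem hS _ _ hI
      have h3 : z0 I = 0 := by rw [hz0]; simp only [hI, false_and, if_false]
      simp only [h1, h3]
      exact tendsto_const_nhds
  have hcl : z0 ∈ closure S.flat.Z := by
    refine mem_closure_of_tendsto hlim (Eventually.of_forall fun n => ?_)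
    refine ⟨x (1 / ((n : ℝ) + 1)), ?_, rfl⟩
    rintro (i | h)
    · exact Real.rpow_pos_of_pos (by positivity) _
    · exact one_pos
  have hz0I0 : z0 I0 = dl I0 := by
    rw [hz0]; simp only [hI0, hm, and_self, if_true]
  have hz0ne : z0 ≠ 0 := by
    intro h
    have h1 := congrFun h I0
    rw [hz0I0] at h1
    exact (hdl_pos I0 hI0).ne' h1
  have hz0Z : z0 ∉ S.flat.Z := by
    rintro ⟨y, hy, hzy⟩
    have h1 : z0 J1 = 0 := by
      rw [hz0]; simp only [hJ1, hJm.ne', and_false, if_false]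
    have h2 : 0 < S.flat.ev y J1 := by
      rw [ev_eq]
      exact mul_pos (Finset.prod_pos fun i _ => hy _)
        (natpoly_eval_pos _ (fun u => hy _) _ ((hWf.ne J1).2 hJ1))
    rw [← hzy, h1] at h2
    exact lt_irrefl _ h2
  obtain ⟨S', hS', hzc⟩ := hB z0 hcl hz0ne hz0Z
  refine ⟨S', hS', fun I hI hImin => ?_⟩
  by_contra hIn
  have hval := (hF S S' hS hS').1
  have hIm : ∑ i ∈ I, ν i = m := le_antisymm (hImin I0 hI0) (hmin I hI)
  have h1 : z0 I = dl I := by rw [hz0]; simp only [hI, hIm, and_self, if_true]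
  have h2 : closure S'.flat.Z ⊆ {z : Finset ℕ → ℝ | z I = 0} := by
    apply closure_minimal
    · rintro z ⟨y, _, rfl⟩
      exact ev_ne_mem hval _ _ hIn
    · exact isClosed_eq (continuous_apply I) continuous_const
  have h3 : z0 I = 0 := h2 hzc
  rw [h1] at h3
  exact (hdl_pos I hI).ne' h3

end ABCT.H42
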